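import Mathlib

/-! Products of three involutions: from `a² B` to `diag (a I, a I, B)`. -/

set_option autoImplicit false

namespace Pool.Agent.TH269.TI

/-- `A` is a product of three involutions (the identity counts as an involution). -/
def P3 {F V : Type} [Field F] [AddCommGroup V] [Module F V] (A : V →ₗ[F] V) : Prop :=
  ∃ S T U : V →ₗ[F] V, (∀ v, S (S v) = v) ∧ (∀ v, T (T v) = v) ∧ (∀ v, U (U v) = v) ∧
    ∀ v, A v = S (T (U v))

variable {F : Type} [Field F]

theorem P3_conj {V W : Type} [AddCommGroup V] [Module F V] [AddCommGroup W] [Module F W]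
    (G : V ≃ₗ[F] W) {A : V →ₗ[F] V} {A' : W →ₗ[F] W} (h : ∀ v, G (A v) = A' (G v))
    (hA : P3 A) : P3 A' := by
  obtain ⟨S, T, U, hS, hT, hU, hAS⟩ := hA
  refine ⟨G.toLinearMap ∘ₗ S ∘ₗ G.symm.toLinearMap, G.toLinearMap ∘ₗ T ∘ₗ G.symm.toLinearMap,
    G.toLinearMap ∘ₗ U ∘ₗ G.symm.toLinearMap, fun v => ?_, fun v => ?_, fun v => ?_, fun v => ?_⟩
  · simp [hS]
  · simp [hT]
  · simp [hU]
  · have h1 := h (G.symm v)
    rw [LinearEquiv.apply_symm_apply] at h1
    rw [← h1, hAS]
    simp

variable {X : Type} [AddCommGroup X] [Module F X]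

/-- the operator `diag (a I, a I, B)` -/
def infl (a : F) (B : X →ₗ[F] X) : (X × X × X) →ₗ[F] (X × X × X) :=
  (a • LinearMap.id).prodMap ((a • LinearMap.id).prodMap B)

theorem infl_apply (a : F) (B : X →ₗ[F] X) (v : X × X × X) :
    infl a B v = (a • v.1, a • v.2.1, B v.2.2) := rfl

section

variable (a : F) (s t u : X →ₗ[F] X)

/-- first involution -/
def SS : (X × X × X) →ₗ[F] (X × X × X) where
  toFun v := (v.2.1, v.1, s v.2.2)
  map_add' v w := by simp
  map_smul' c v := by simp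

/-- second involution -/
def TT : (X × X × X) →ₗ[F] (X × X × X) where
  toFun v := (-(a⁻¹ • u v.2.1) + v.2.2, -(a • u v.1) + a • u (t v.2.2), t v.2.2)
  map_add' v w := by
    simp only [Prod.fst_add, Prod.snd_add, map_add, smul_add, Prod.mk_add_mk, Prod.mk.injEq]
    refine ⟨by abel, by abel, trivial⟩
  map_smul' c v := by
    simp only [Prod.smul_fst, Prod.smul_snd, map_smul, RingHom.id_apply, Prod.smul_mk,
      Prod.mk.injEq, smul_add, smul_neg, smul_comm c a, smul_comm c a⁻¹, and_self]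

/-- third involution -/
def UU : (X × X × X) →ₗ[F] (X × X × X) where
  toFun v := (-u v.1 + a • t v.2.1 + u (t (v.2.2 - s (t v.2.1))), a⁻¹ • (v.2.2 - s (t v.2.1)),
    a • v.2.1 + a⁻¹ • s (t (v.2.2 - s (t v.2.1))))
  map_add' v w := by
    simp only [Prod.fst_add, Prod.snd_add, map_add, map_sub, smul_add, smul_sub, Prod.mk_add_mk,
      Prod.mk.injEq]
    refine ⟨by abel, by abel, by abel⟩
  map_smul' c v := by
    simp only [Prod.smul_fst, Prod.smul_snd, map_smul, map_sub, RingHom.id_apply, Prod.smul_mk,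
      Prod.mk.injEq, smul_add, smul_neg, smul_sub, smul_comm c a, smul_comm c a⁻¹, and_self]

end

theorem P3_infl {a : F} (ha : a ≠ 0) {B : X →ₗ[F] X} (m : X →ₗ[F] X)
    (hm : ∀ x, m (B x - a • x) = x) (h : P3 (a ^ 2 • B)) :
    P3 (infl a B) := by
  obtain ⟨s, t, u, hs, ht, hu, hB⟩ := h
  have hB' : ∀ x, s (t (u x)) = a ^ 2 • B x := fun x => (hB x).symm
  have hS : ∀ v, SS (F := F) s (SS s v) = v := by
    intro v
    simp [SS, hs]
  have hT : ∀ v, TT a t u (TT a t u v) = v := by
    intro v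
    obtain ⟨e, f, k⟩ := v
    simp only [TT, LinearMap.coe_mk, AddHom.coe_mk, Prod.mk.injEq, map_add, map_neg, map_smul, hu,
      ht, smul_add, smul_neg, smul_smul, mul_inv_cancel₀ ha, inv_mul_cancel₀ ha, one_smul]
    refine ⟨by abel, by abel, trivial⟩
  have hU : ∀ v, UU a s t u (UU a s t u v) = v := by
    intro v
    obtain ⟨e, f, k⟩ := v
    simp only [UU, LinearMap.coe_mk, AddHom.coe_mk, Prod.mk.injEq]
    set g := k - s (t f) with hg
    have h1 : a • f + a⁻¹ • s (t g) - s (t (a⁻¹ • g)) = a • f := by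
      simp only [map_smul]
      abel
    rw [h1]
    simp only [map_add, map_neg, map_smul, hu, ht, smul_smul, mul_inv_cancel₀ ha,
      inv_mul_cancel₀ ha, one_smul]
    refine ⟨by abel, trivial, ?_⟩
    rw [hg]
    abel
  let x1 : X →ₗ[F] X := -(a • t) + u ∘ₗ t ∘ₗ s ∘ₗ t
  let x2 : X →ₗ[F] X := -(a⁻¹ • a⁻¹ • u) + a⁻¹ • (s ∘ₗ t)
  -- the product of the three involutions
  have hA : ∀ e f k : X, SS s (TT a t u (UU a s t u (e, f, k))) =
      (a • e + x1 (k - s (t f)), a • f + x2 (k - s (t f)),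
        s (t (a • f + x2 (k - s (t f)))) + B (k - s (t f))) := by
    intro e f k
    simp only [SS, TT, UU, LinearMap.coe_mk, AddHom.coe_mk, Prod.mk.injEq, x1, x2,
      LinearMap.add_apply, LinearMap.neg_apply, LinearMap.smul_apply, LinearMap.comp_apply]
    set g := k - s (t f) with hg
    simp only [map_add, map_neg, map_smul, hu, ht, smul_add, smul_neg, smul_smul,
      mul_inv_cancel₀ ha, inv_mul_cancel₀ ha, one_smul, hB']
    have h2 : (a⁻¹ * a⁻¹ * a ^ 2 : F) = 1 := by field_simp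
    refine ⟨by abel, by abel, ?_⟩
    rw [h2, one_smul]
    abel
  let G : (X × X × X) ≃ₗ[F] (X × X × X) :=
    { toFun := fun v => (v.1 - x1 (m (v.2.2 - s (t v.2.1))), v.2.1 - x2 (m (v.2.2 - s (t v.2.1))),
        v.2.2 - s (t v.2.1))
      invFun := fun v => (v.1 + x1 (m v.2.2), v.2.1 + x2 (m v.2.2),
        v.2.2 + s (t (v.2.1 + x2 (m v.2.2))))
      map_add' := fun v w => by
        simp only [Prod.fst_add, Prod.snd_add, map_add, map_sub, Prod.mk_add_mk, Prod.mk.injEq]
        refine ⟨by abel, by abel, by abel⟩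
      map_smul' := fun c v => by
        simp only [Prod.smul_fst, Prod.smul_snd, map_smul, map_sub, RingHom.id_apply,
          Prod.smul_mk, Prod.mk.injEq, smul_sub, and_self]
      left_inv := fun v => by
        obtain ⟨e, f, k⟩ := v
        simp
      right_inv := fun v => by
        obtain ⟨e, f, k⟩ := v
        simp }
  refine P3_conj G (A := SS s ∘ₗ TT a t u ∘ₗ UU a s t u) ?_
    ⟨SS s, TT a t u, UU a s t u, hS, hT, hU, fun v => rfl⟩
  rintro ⟨e, f, k⟩
  have h3 : (SS s ∘ₗ TT a t u ∘ₗ UU a s t u) (e, f, k) =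
      SS s (TT a t u (UU a s t u (e, f, k))) := rfl
  rw [h3, hA, infl_apply]
  set g := k - s (t f) with hg
  have h4 : G (a • e + x1 g, a • f + x2 g, s (t (a • f + x2 g)) + B g) =
      (a • e + x1 g - x1 (m (B g)), a • f + x2 g - x2 (m (B g)), B g) := by
    change (_ - x1 (m (s (t (a • f + x2 g)) + B g - s (t (a • f + x2 g)))), _, _) = _
    have h5 : s (t (a • f + x2 g)) + B g - s (t (a • f + x2 g)) = B g := by abel
    simp only [h5]
  have h5 : G (e, f, k) = (e - x1 (m g), f - x2 (m g), g) := rfl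
  rw [h4, h5]
  have h6 : m (B g) = g + a • m g := by
    have := hm g
    rw [map_sub, map_smul] at this
    exact sub_eq_iff_eq_add.1 this
  simp only [h6, map_add, map_smul, smul_sub, Prod.mk.injEq, and_true]
  refine ⟨by abel, by abel⟩

end Pool.Agent.TH269.TI
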