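import Mathlib
import Pool.Agent.TH269.TI.If

/-! Products of three involutions: from `diag (a I, a I, B)` to `a² B`. -/

set_option autoImplicit false

open Module

namespace Pool.Agent.TH269.TI

variable {F : Type} [Field F]
variable {V X : Type} [AddCommGroup V] [Module F V] [FiniteDimensional F V]
  [AddCommGroup X] [Module F X] [FiniteDimensional F X]

/-- the second half in terms of coordinates -/
theorem coords {a : F} (ha : a ≠ 0) {B : X →ₗ[F] X} (hBa : ∀ x, B x = a • x → x = 0)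
    {A : V →ₗ[F] V} (i : X →ₗ[F] V) (ρ : V →ₗ[F] X) (hi : ∀ x, ρ (i x) = x)
    (hA : ∀ v, A v = a • v + i (B (ρ v) - a • ρ v))
    {S T U : V →ₗ[F] V} (hS : ∀ v, S (S v) = v) (hT : ∀ v, T (T v) = v) (hU : ∀ v, U (U v) = v)
    (hAS : ∀ v, A v = S (T (U v)))
    (j k : X →ₗ[F] V) (hj1 : ∀ x, ρ (j x) = 0) (hj2 : ∀ x, ρ (U (j x)) = 0)
    (hk1 : ∀ x, ρ (U (k x)) = 0) (hk2 : ∀ x, ρ (k x) = 0 → x = 0)
    (hUj : ∃ u : X →ₗ[F] X, ∀ x, U (j x) = j (u x))
    (Φ : (X × X × X) ≃ₗ[F] V) (hΦ : ∀ e f c, Φ (e, f, c) = j e + S (j f) + k c) :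
    P3 (a ^ 2 • B) := by
  obtain ⟨u, hu⟩ := hUj
  -- coordinate maps
  let πf : V →ₗ[F] X := LinearMap.fst F X X ∘ₗ LinearMap.snd F X (X × X) ∘ₗ Φ.symm.toLinearMap
  let πc : V →ₗ[F] X := LinearMap.snd F X X ∘ₗ LinearMap.snd F X (X × X) ∘ₗ Φ.symm.toLinearMap
  have hπf : ∀ e f c, πf (j e + S (j f) + k c) = f := by
    intro e f c
    rw [← hΦ]
    simp [πf]
  have hπc : ∀ e f c, πc (j e + S (j f) + k c) = c := by
    intro e f c
    rw [← hΦ]
    simp [πc]
  have hdec : ∀ v, ∃ e f c, v = j e + S (j f) + k c := by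
    intro v
    obtain ⟨⟨e, f, c⟩, h⟩ := Φ.surjective v
    exact ⟨e, f, c, by rw [← h, hΦ]⟩
  have hfj : ∀ x, πf (j x) = 0 := fun x => by simpa using hπf x 0 0
  have hfS : ∀ x, πf (S (j x)) = x := fun x => by simpa using hπf 0 x 0
  have hfk : ∀ x, πf (k x) = 0 := fun x => by simpa using hπf 0 0 x
  have hcj : ∀ x, πc (j x) = 0 := fun x => by simpa using hπc x 0 0
  have hcS : ∀ x, πc (S (j x)) = 0 := fun x => by simpa using hπc 0 x 0
  have hck : ∀ x, πc (k x) = x := fun x => by simpa using hπc 0 0 x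
  have hjinj : ∀ x, j x = 0 → x = 0 := by
    intro x hx
    have h1 : S (j x) = 0 := by rw [hx, map_zero]
    rw [← hfS x, h1, map_zero]
  -- the action of `P = S T` on vectors `w` with `ρ (U w) = 0`
  have hP : ∀ w, ρ (U w) = 0 → S (T w) = a • U w := by
    intro w hw
    have h1 := hAS (U w)
    rw [hU, hA, hw] at h1
    simpa using h1.symm
  have hTS : ∀ w, ρ (U w) = 0 → T (S (U w)) = a⁻¹ • w := by
    intro w hw
    have h1 := hP w hw
    have h2 : T (S (S (T w))) = w := by rw [hS, hT]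
    rw [h1, map_smul, map_smul] at h2
    calc T (S (U w)) = a⁻¹ • a • T (S (U w)) := by rw [smul_smul, inv_mul_cancel₀ ha, one_smul]
      _ = a⁻¹ • w := by rw [h2]
  have huu : ∀ x, u (u x) = x := by
    intro x
    have h1 : j (u (u x) - x) = 0 := by
      rw [map_sub, ← hu, ← hu, hU, sub_self]
    exact sub_eq_zero.1 (hjinj _ h1)
  have hTSj : ∀ x, T (S (j x)) = a⁻¹ • j (u x) := by
    intro x
    have h1 := hTS (U (j x)) (by rw [hU]; exact hj1 x)
    rwa [hU, hu] at h1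
  -- `σ`, `τ`
  let σ : X →ₗ[F] X := πc ∘ₗ S ∘ₗ k
  let τ : X →ₗ[F] X := πc ∘ₗ T ∘ₗ k
  have hσ : ∀ v, πc (S v) = σ (πc v) := by
    intro v
    obtain ⟨e, f, c, rfl⟩ := hdec v
    rw [hπc]
    simp only [map_add, hS, hcS, hcj, zero_add]
    rfl
  have hτ : ∀ v, πc (T v) = τ (πc v) := by
    intro v
    obtain ⟨e, f, c, rfl⟩ := hdec v
    have h1 : T (j e) = a • S (j (u e)) := by
      have h2 := hP (j e) (hj2 e)
      rw [← hS (T (j e)), h2, map_smul, hu]
    rw [hπc]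
    simp only [map_add, h1, hTSj, map_smul, hcS, hcj, smul_zero, zero_add]
    rfl
  have hσσ : ∀ x, σ (σ x) = x := by
    intro x
    have h1 := hσ (S (k x))
    rw [hS, hck] at h1
    exact h1.symm
  have hττ : ∀ x, τ (τ x) = x := by
    intro x
    have h1 := hτ (T (k x))
    rw [hT, hck] at h1
    exact h1.symm
  -- `y`, `δ`
  let y : X →ₗ[F] X := πf ∘ₗ U ∘ₗ S ∘ₗ j
  let δ : X →ₗ[F] X := πf ∘ₗ U ∘ₗ k
  have hy : ∀ v, πf (U v) = y (πf v) + δ (πc v) := by
    intro v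
    obtain ⟨e, f, c, rfl⟩ := hdec v
    rw [hπc, hπf]
    simp only [map_add, hu, hfj, zero_add]
    rfl
  have hyδ : ∀ c, a • y (δ c) = -δ (σ (τ c)) := by
    intro c
    have h1 := hy (U (k c))
    rw [hU, hfk] at h1
    have h2 : πc (U (k c)) = a⁻¹ • σ (τ c) := by
      have h3 := hP (k c) (hk1 c)
      have h4 : U (k c) = a⁻¹ • S (T (k c)) := by
        rw [h3, smul_smul, inv_mul_cancel₀ ha, one_smul]
      rw [h4, map_smul, hσ, hτ, hck]
    rw [h2, map_smul] at h1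
    have h5 : y (δ c) = -(a⁻¹ • δ (σ (τ c))) := by
      have h6 : y (πf (U (k c))) + a⁻¹ • δ (σ (τ c)) = 0 := h1.symm
      exact eq_neg_of_add_eq_zero_left h6
    rw [h5, smul_neg, smul_smul, mul_inv_cancel₀ ha, one_smul]
  have hδinj : Function.Injective δ := by
    rw [← LinearMap.ker_eq_bot, LinearMap.ker_eq_bot']
    intro c hc
    obtain ⟨e, f, c', h1⟩ := hdec (U (k c))
    have h2 : f = 0 := by
      have h3 : πf (U (k c)) = 0 := hc
      rw [h1, hπf] at h3
      exact h3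
    rw [h2, map_zero, map_zero, add_zero] at h1
    apply hk2
    have h3 : k c = U (j e + k c') := by rw [← h1, hU]
    rw [h3, map_add, map_add, hj2, hk1, add_zero]
  -- the operator `M`
  let N : X →ₗ[F] V := (S ∘ₗ T - a • U) ∘ₗ S ∘ₗ j
  let M : X →ₗ[F] X := πf ∘ₗ U ∘ₗ i
  have hN : ∀ v, i (B (ρ v) - a • ρ v) = N (πf (U v)) := by
    intro v
    have h0 : ∀ w, i (B (ρ (U w)) - a • ρ (U w)) = S (T w) - a • U w := by
      intro w
      have h1 := hAS (U w)
      rw [hU, hA] at h1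
      rw [← h1]
      abel
    have h1 := h0 (U v)
    rw [hU] at h1
    rw [h1]
    obtain ⟨e, f, c, h2⟩ := hdec (U v)
    rw [show v = U (U v) from (hU v).symm]
    rw [hU, h2, hπf]
    have h3 := hP (j e) (hj2 e)
    have h4 := hP (k c) (hk1 c)
    simp only [map_add, h3, h4, N, LinearMap.comp_apply, LinearMap.sub_apply,
      LinearMap.smul_apply, smul_add]
    abel
  have hMN : ∀ f, πf (U (N f)) = a⁻¹ • y (u f) - a • f := by
    intro f
    simp only [N, LinearMap.comp_apply, LinearMap.sub_apply, LinearMap.smul_apply]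
    rw [hTSj, map_sub, map_smul, map_smul, map_smul, hU, map_sub, map_smul, map_smul, hfS]
    rfl
  have hMB : ∀ x, M (B x) = a⁻¹ • y (u (M x)) := by
    intro x
    have h1 := hN (i x)
    rw [hi] at h1
    have h2 : πf (U (i (B x - a • x))) = πf (U (N (πf (U (i x))))) := by rw [h1]
    have h3 : πf (U (i x)) = M x := rfl
    rw [h3, hMN] at h2
    have h4 : πf (U (i (B x - a • x))) = M (B x) - a • M x := by
      simp [M]
    rw [h4] at h2
    exact sub_left_injective h2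
  have hMinj : Function.Injective M := by
    rw [← LinearMap.ker_eq_bot, LinearMap.ker_eq_bot']
    intro x hx
    have h1 := hN (i x)
    have h3 : πf (U (i x)) = M x := rfl
    rw [hi, h3, hx, map_zero] at h1
    have h4 := congrArg ρ h1
    rw [hi, map_zero] at h4
    exact hBa x (sub_eq_zero.1 h4)
  let D : X ≃ₗ[F] X := LinearEquiv.ofInjectiveEndo δ hδinj
  let MM : X ≃ₗ[F] X := LinearEquiv.ofInjectiveEndo M hMinj
  have hD : ∀ x, D x = δ x := fun x => rfl
  have hMM : ∀ x, MM x = M x := fun x => rfl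
  refine ⟨-(MM.symm.toLinearMap ∘ₗ D.toLinearMap ∘ₗ σ ∘ₗ D.symm.toLinearMap ∘ₗ MM.toLinearMap),
    MM.symm.toLinearMap ∘ₗ D.toLinearMap ∘ₗ τ ∘ₗ D.symm.toLinearMap ∘ₗ MM.toLinearMap,
    MM.symm.toLinearMap ∘ₗ u ∘ₗ MM.toLinearMap, fun v => ?_, fun v => ?_, fun v => ?_,
    fun v => ?_⟩
  · simp [hσσ]
  · simp [hττ]
  · simp [huu]
  · simp only [LinearMap.neg_apply, LinearMap.comp_apply, LinearEquiv.coe_coe,
      LinearEquiv.apply_symm_apply, LinearEquiv.symm_apply_apply, LinearMap.smul_apply]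
    apply MM.injective
    rw [map_neg, LinearEquiv.apply_symm_apply, map_smul, hMM, hMM, hMB]
    have h1 := hyδ (D.symm (u (M v)))
    rw [← hD, LinearEquiv.apply_symm_apply] at h1
    rw [hD, ← h1, smul_smul]
    congr 1
    field_simp

end Pool.Agent.TH269.TI
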