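import Mathlib
import Pool.Agent.TH269.TI.OnlyIf

/-! Products of three involutions: the subspaces, assembly. -/

set_option autoImplicit false

open Module

namespace Pool.Agent.TH269.TI

variable {F : Type} [Field F]
variable {V X : Type} [AddCommGroup V] [Module F V] [FiniteDimensional F V]
  [AddCommGroup X] [Module F X] [FiniteDimensional F X]

theorem finrank_ker_of_surj (ρ : V →ₗ[F] X) (h : Function.Surjective ρ) :
    finrank F (LinearMap.ker ρ) + finrank F X = finrank F V := by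
  have h1 := LinearMap.finrank_range_add_finrank_ker ρ
  rw [LinearMap.range_eq_top.2 h, finrank_top] at h1
  omega

/-- the second half -/
theorem onlyIf {a : F} (ha : a ≠ 0) {B : X →ₗ[F] X} (hBa : ∀ x, B x = a • x → x = 0)
    {A : V →ₗ[F] V} (i : X →ₗ[F] V) (ρ : V →ₗ[F] X) (hi : ∀ x, ρ (i x) = x)
    (hA : ∀ v, A v = a • v + i (B (ρ v) - a • ρ v))
    (hA3 : ∀ v, A v = (a⁻¹ ^ 3) • v → v = 0)
    (hdim : finrank F V = 3 * finrank F X) (h : P3 A) : P3 (a ^ 2 • B) := by
  obtain ⟨S, T, U, hS, hT, hU, hAS⟩ := h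
  set q := finrank F X with hq
  have hρs : Function.Surjective ρ := fun x => ⟨i x, hi x⟩
  have hρUs : Function.Surjective (ρ ∘ₗ U) := fun x => ⟨U (i x), by simp [hU, hi]⟩
  let K : Submodule F V := LinearMap.ker (ρ ∘ₗ U)
  let K' : Submodule F V := LinearMap.ker ρ
  have hK : ∀ v, v ∈ K ↔ ρ (U v) = 0 := fun v => Iff.rfl
  have hK' : ∀ v, v ∈ K' ↔ ρ v = 0 := fun v => Iff.rfl
  have hKd : finrank F K = 2 * q := by
    have h1 : finrank F K + q = finrank F V := finrank_ker_of_surj (ρ ∘ₗ U) hρUs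
    omega
  have hK'd : finrank F K' = 2 * q := by
    have h1 : finrank F K' + q = finrank F V := finrank_ker_of_surj ρ hρs
    omega
  let E : Submodule F V := K ⊓ K'
  have hE : ∀ v, v ∈ E ↔ ρ (U v) = 0 ∧ ρ v = 0 := fun v => Iff.rfl
  have hEd : q ≤ finrank F E := by
    have h1 := Submodule.finrank_sup_add_finrank_inf_eq K K'
    have h2 : finrank F (K ⊔ K' : Submodule F V) ≤ finrank F V := Submodule.finrank_le _
    change finrank F (K ⊔ K' : Submodule F V) + finrank F E = _ at h1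
    omega
  have hEU : ∀ e ∈ E, U e ∈ E := by
    intro e he
    rw [hE] at he ⊢
    rw [hU]
    exact ⟨he.2, he.1⟩
  -- the action of `P = S T`
  have hP : ∀ w, ρ (U w) = 0 → S (T w) = a • U w := by
    intro w hw
    have h1 := hAS (U w)
    rw [hU, hA, hw] at h1
    simpa using h1.symm
  have hTS : ∀ w, ρ (U w) = 0 → T (S (U w)) = a⁻¹ • w := by
    intro w hw
    have h1 := hP w hw
    have h2 : T (S (S (T w))) = w := by rw [hS, hT]
    rw [h1, map_smul, map_smul] at h2
    calc T (S (U w)) = a⁻¹ • a • T (S (U w)) := by rw [smul_smul, inv_mul_cancel₀ ha, one_smul]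
      _ = a⁻¹ • w := by rw [h2]
  have hSE : ∀ e ∈ E, S e ∈ K → e = 0 := by
    intro e he hSe
    rw [hE] at he
    rw [hK] at hSe
    have h1 : T (S e) = a⁻¹ • U e := by
      have := hTS (U e) (by rw [hU]; exact he.2)
      rwa [hU] at this
    have h2 : T (S (U e)) = a⁻¹ • e := hTS e he.1
    -- `P (S e) = a U S e`
    have h3 : S (T (S e)) = a • U (S e) := hP (S e) hSe
    rw [h1, map_smul] at h3
    have h4 : U (S e) = (a⁻¹ * a⁻¹) • S (U e) := by
      calc U (S e) = a⁻¹ • a • U (S e) := by rw [smul_smul, inv_mul_cancel₀ ha, one_smul]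
        _ = (a⁻¹ * a⁻¹) • S (U e) := by rw [← h3, smul_smul]
    have h5 : A (S e) = (a⁻¹ ^ 3) • S e := by
      rw [hAS, h4, map_smul, map_smul, h2, map_smul, smul_smul]
      congr 1
      ring
    have h6 := hA3 _ h5
    rw [← hS e, h6, map_zero]
  have hSinj : Function.Injective S := fun x y hxy => by rw [← hS x, hxy, hS]
  have hEd' : finrank F E = q := by
    have h1 : finrank F (E.map S) = finrank F E :=
      (LinearEquiv.finrank_eq (Submodule.equivMapOfInjective S hSinj E)).symm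
    have h2 := Submodule.finrank_sup_add_finrank_inf_eq K (E.map S)
    have h3 : K ⊓ E.map S = ⊥ := by
      rw [eq_bot_iff]
      rintro v ⟨hv1, e, he, rfl⟩
      rw [Submodule.mem_bot, hSE e he hv1, map_zero]
    rw [h3, finrank_bot] at h2
    have h4 : finrank F (K ⊔ E.map S : Submodule F V) ≤ finrank F V := Submodule.finrank_le _
    omega
  -- a complement of `E` in `K`
  have hEK : E ≤ K := inf_le_left
  obtain ⟨C, hC⟩ := Submodule.exists_isCompl (Submodule.comap K.subtype E)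
  have hCd : finrank F C = q := by
    have h1 := Submodule.finrank_add_eq_of_isCompl hC
    have h2 : finrank F (Submodule.comap K.subtype E) = finrank F E :=
      LinearEquiv.finrank_eq (Submodule.comapSubtypeEquivOfLe hEK)
    omega
  let jE : X ≃ₗ[F] E := LinearEquiv.ofFinrankEq X E hEd'.symm
  let kC : X ≃ₗ[F] C := LinearEquiv.ofFinrankEq X C hCd.symm
  let j : X →ₗ[F] V := E.subtype ∘ₗ jE.toLinearMap
  let k : X →ₗ[F] V := K.subtype ∘ₗ C.subtype ∘ₗ kC.toLinearMap
  have hjE : ∀ x, j x ∈ E := fun x => (jE x).2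
  have hkK : ∀ x, k x ∈ K := fun x => ((kC x : C) : K).2
  have hj0 : ∀ x, j x = 0 → x = 0 := by
    intro x hx
    have h1 : jE x = 0 := Subtype.ext hx
    exact (LinearEquiv.map_eq_zero_iff jE).1 h1
  have hk0 : ∀ x, k x ∈ E → x = 0 := by
    intro x hx
    have h1 : ((kC x : C) : K) ∈ Submodule.comap K.subtype E := hx
    have h2 : ((kC x : C) : K) ∈ (Submodule.comap K.subtype E) ⊓ C := ⟨h1, (kC x).2⟩
    rw [hC.inf_eq_bot, Submodule.mem_bot] at h2
    have h3 : kC x = 0 := Subtype.ext h2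
    exact (LinearEquiv.map_eq_zero_iff kC).1 h3
  let Φ₀ : (X × X × X) →ₗ[F] V := j.coprod ((S ∘ₗ j).coprod k)
  have hΦ₀ : ∀ e f c, Φ₀ (e, f, c) = j e + S (j f) + k c := by
    intro e f c
    simp [Φ₀, add_assoc]
  have hinj : Function.Injective Φ₀ := by
    rw [← LinearMap.ker_eq_bot, LinearMap.ker_eq_bot']
    rintro ⟨e, f, c⟩ h0
    rw [hΦ₀] at h0
    have h1 : S (j f) = -(j e + k c) := by
      rw [eq_neg_iff_add_eq_zero, ← h0]
      abel
    have h2 : j f = 0 := by
      refine hSE _ (hjE f) ?_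
      rw [h1]
      exact K.neg_mem (K.add_mem (hEK (hjE e)) (hkK c))
    have hf : f = 0 := hj0 f h2
    rw [h2, map_zero, add_zero] at h0
    have h3 : k c = -j e := by
      rw [eq_neg_iff_add_eq_zero, add_comm]
      exact h0
    have hc : c = 0 := by
      refine hk0 c ?_
      rw [h3]
      exact E.neg_mem (hjE e)
    rw [hc, map_zero, add_zero] at h0
    rw [hj0 e h0, hf, hc]
    rfl
  have hfin : finrank F (X × X × X) = finrank F V := by
    rw [finrank_prod, finrank_prod, hdim]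
    omega
  let Φ : (X × X × X) ≃ₗ[F] V := LinearEquiv.ofInjectiveOfFinrankEq Φ₀ hinj hfin
  have hΦ : ∀ e f c, Φ (e, f, c) = j e + S (j f) + k c := fun e f c => hΦ₀ e f c
  refine coords ha hBa i ρ hi hA hS hT hU hAS j k (fun x => ((hE _).1 (hjE x)).2)
    (fun x => ((hE _).1 (hjE x)).1) (fun x => (hK _).1 (hkK x))
    (fun x hx => hk0 x ((hE _).2 ⟨(hK _).1 (hkK x), hx⟩)) ?_ Φ hΦ
  let uE : E →ₗ[F] E := U.restrict hEU
  refine ⟨jE.symm.toLinearMap ∘ₗ uE ∘ₗ jE.toLinearMap, fun x => ?_⟩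
  simp [j, uE]

/-- the first half -/
theorem infl_of {a : F} (ha : a ≠ 0) {B : X →ₗ[F] X} (hBa : ∀ x, B x = a • x → x = 0)
    (h : P3 (a ^ 2 • B)) : P3 (infl a B) := by
  have hinj : Function.Injective (B - a • LinearMap.id : X →ₗ[F] X) := by
    rw [← LinearMap.ker_eq_bot, LinearMap.ker_eq_bot']
    intro x hx
    exact hBa x (sub_eq_zero.1 hx)
  let e : X ≃ₗ[F] X := LinearEquiv.ofInjectiveEndo _ hinj
  refine P3_infl ha e.symm.toLinearMap (fun x => ?_) h
  have : B x - a • x = e x := rfl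
  rw [this]
  simp

/-- **The recursion.** -/
theorem main {a : F} (ha : a ≠ 0) (ha4 : a ^ 4 ≠ 1) {B : X →ₗ[F] X}
    (hBa : ∀ x, B x = a • x → x = 0) (hBa3 : ∀ x, B x = (a⁻¹ ^ 3) • x → x = 0) :
    P3 (infl a B) ↔ P3 (a ^ 2 • B) := by
  constructor
  · intro h
    refine onlyIf ha hBa (LinearMap.inr F X (X × X) ∘ₗ LinearMap.inr F X X)
      (LinearMap.snd F X X ∘ₗ LinearMap.snd F X (X × X)) (fun x => by simp) ?_ ?_ ?_ h
    · rintro ⟨e, f, k⟩
      rw [infl_apply]
      simp
    · rintro ⟨e, f, k⟩ hv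
      rw [infl_apply] at hv
      simp only [Prod.smul_mk, Prod.mk.injEq] at hv
      have ha3 : a ≠ a⁻¹ ^ 3 := by
        intro h0
        apply ha4
        calc a ^ 4 = a ^ 3 * a := by ring
          _ = a ^ 3 * a⁻¹ ^ 3 := by rw [← h0]
          _ = 1 := by rw [← mul_pow, mul_inv_cancel₀ ha, one_pow]
      have h1 : ∀ x : X, a • x = (a⁻¹ ^ 3) • x → x = 0 := by
        intro x hx
        have h2 : (a - a⁻¹ ^ 3) • x = 0 := by rw [sub_smul, hx, sub_self]
        rcases smul_eq_zero.1 h2 with h3 | h3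
        · exact absurd (sub_eq_zero.1 h3) ha3
        · exact h3
      rw [h1 e hv.1, h1 f hv.2.1, hBa3 k hv.2.2]
      rfl
    · rw [finrank_prod, finrank_prod]
      omega
  · exact infl_of ha hBa

end Pool.Agent.TH269.TI
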