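import Mathlib
import Pool.Agent.TH269.TI.Main

/-! Products of three involutions: splitting off the blocks `diag (a, a, a, a⁻³)`. -/

set_option autoImplicit false

open Module

namespace Pool.Agent.TH269.TI

variable {F : Type} [Field F]
variable {V X Y : Type} [AddCommGroup V] [Module F V] [FiniteDimensional F V]
  [AddCommGroup X] [Module F X] [FiniteDimensional F X]
  [AddCommGroup Y] [Module F Y] [FiniteDimensional F Y]

theorem finrank_map_inj (S : V →ₗ[F] V) (hS : Function.Injective S) (H : Submodule F V) :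
    finrank F (H.map S) = finrank F H :=
  (LinearEquiv.finrank_eq (Submodule.equivMapOfInjective S hS H)).symm

theorem finrank_sup_disj (H G : Submodule F V) (h : H ⊓ G = ⊥) :
    finrank F (H ⊔ G : Submodule F V) = finrank F H + finrank F G := by
  have h1 := Submodule.finrank_sup_add_finrank_inf_eq H G
  rw [h, finrank_bot] at h1
  omega

/-- the second half, with blocks `diag (a, a, a, a⁻³)` -/
theorem onlyIfGen {a : F} (ha : a ≠ 0) (ha4 : a ^ 4 ≠ 1) {B : X →ₗ[F] X}
    (hBa : ∀ x, B x = a • x → x = 0) (hBa3 : ∀ x, B x = (a⁻¹ ^ 3) • x → x = 0)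
    {A : V →ₗ[F] V} (i : X →ₗ[F] V) (ρ : V →ₗ[F] X) (hi : ∀ x, ρ (i x) = x)
    (i' : Y →ₗ[F] V) (ρ' : V →ₗ[F] Y) (hi' : ∀ y, ρ' (i' y) = y)
    (hii : ∀ y, ρ (i' y) = 0) (hii' : ∀ x, ρ' (i x) = 0)
    (hA : ∀ v, A v = a • v + i (B (ρ v) - a • ρ v) + i' ((a⁻¹ ^ 3 - a) • ρ' v))
    (hdim : finrank F V = 3 * finrank F X + 4 * finrank F Y) (h : P3 A) : P3 (a ^ 2 • B) := by
  obtain ⟨S, T, U, hS, hT, hU, hAS⟩ := h
  set q := finrank F X with hq
  set s := finrank F Y with hs
  have ha3 : a⁻¹ ^ 3 - a ≠ 0 := by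
    intro h0
    apply ha4
    have h1 : a⁻¹ ^ 3 = a := sub_eq_zero.1 h0
    calc a ^ 4 = a ^ 3 * a := by ring
      _ = a ^ 3 * a⁻¹ ^ 3 := by rw [h1]
      _ = 1 := by rw [← mul_pow, mul_inv_cancel₀ ha, one_pow]
  -- the pair `(ρ, ρ')`
  let R : V →ₗ[F] X × Y := ρ.prod ρ'
  have hR : ∀ v, R v = (ρ v, ρ' v) := fun v => rfl
  have hRs : Function.Surjective R := by
    rintro ⟨x, y⟩
    refine ⟨i x + i' y, ?_⟩
    rw [hR, map_add, map_add, hi, hi', hii, hii', add_zero, zero_add]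
  have hRUs : Function.Surjective (R ∘ₗ U) := by
    intro z
    obtain ⟨v, hv⟩ := hRs z
    exact ⟨U v, by rw [LinearMap.comp_apply, hU, hv]⟩
  have hR0 : ∀ v, R v = 0 → A v = a • v := by
    intro v hv
    rw [hR, Prod.mk_eq_zero] at hv
    rw [hA, hv.1, hv.2]
    simp
  let K : Submodule F V := LinearMap.ker (R ∘ₗ U)
  let K' : Submodule F V := LinearMap.ker R
  have hK : ∀ v, v ∈ K ↔ R (U v) = 0 := fun v => Iff.rfl
  have hXY : finrank F (X × Y) = q + s := by rw [finrank_prod]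
  have hKd : finrank F K + (q + s) = finrank F V := by
    rw [← hXY]
    exact finrank_ker_of_surj (R ∘ₗ U) hRUs
  have hK'd : finrank F K' + (q + s) = finrank F V := by
    rw [← hXY]
    exact finrank_ker_of_surj R hRs
  let E : Submodule F V := K ⊓ K'
  have hE : ∀ v, v ∈ E ↔ R (U v) = 0 ∧ R v = 0 := fun v => Iff.rfl
  have hEd : q + 2 * s ≤ finrank F E := by
    have h1 := Submodule.finrank_sup_add_finrank_inf_eq K K'
    have h2 : finrank F (K ⊔ K' : Submodule F V) ≤ finrank F V := Submodule.finrank_le _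
    change finrank F (K ⊔ K' : Submodule F V) + finrank F E = _ at h1
    omega
  have hEU : ∀ e ∈ E, U e ∈ E := by
    intro e he
    rw [hE] at he ⊢
    rw [hU]
    exact ⟨he.2, he.1⟩
  have hP : ∀ w, R (U w) = 0 → S (T w) = a • U w := by
    intro w hw
    have h1 := hAS (U w)
    rw [hU, hR0 _ hw] at h1
    exact h1.symm
  have hTS : ∀ w, R (U w) = 0 → T (S (U w)) = a⁻¹ • w := by
    intro w hw
    have h1 := hP w hw
    have h2 : T (S (S (T w))) = w := by rw [hS, hT]
    rw [h1, map_smul, map_smul] at h2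
    calc T (S (U w)) = a⁻¹ • a • T (S (U w)) := by rw [smul_smul, inv_mul_cancel₀ ha, one_smul]
      _ = a⁻¹ • w := by rw [h2]
  have hSinj : Function.Injective S := fun x y hxy => by rw [← hS x, hxy, hS]
  have hUinj : Function.Injective U := fun x y hxy => by rw [← hU x, hxy, hU]
  -- vectors `h = S e` with `e ∈ E` in `K`
  have hUH : ∀ e ∈ E, S e ∈ K → U (S e) = (a⁻¹ * a⁻¹) • S (U e) := by
    intro e he hSe
    rw [hE] at he
    rw [hK] at hSe
    have h1 : T (S e) = a⁻¹ • U e := by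
      have := hTS (U e) (by rw [hU]; exact he.2)
      rwa [hU] at this
    have h3 : S (T (S e)) = a • U (S e) := hP (S e) hSe
    rw [h1, map_smul] at h3
    calc U (S e) = a⁻¹ • a • U (S e) := by rw [smul_smul, inv_mul_cancel₀ ha, one_smul]
      _ = (a⁻¹ * a⁻¹) • S (U e) := by rw [← h3, smul_smul]
  have hAH : ∀ e ∈ E, S e ∈ K → A (S e) = (a⁻¹ ^ 3) • S e := by
    intro e he hSe
    have h4 := hUH e he hSe
    have h2 : T (S (U e)) = a⁻¹ • e := hTS e ((hE e).1 he).1
    rw [hAS, h4, map_smul, map_smul, h2, map_smul, smul_smul]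
    congr 1
    ring
  let H : Submodule F V := K ⊓ E.map S
  have hH : ∀ v, v ∈ H → ∃ e ∈ E, S e = v ∧ S e ∈ K := by
    rintro v ⟨hv1, e, he, rfl⟩
    exact ⟨e, he, rfl, hv1⟩
  -- dimension of `H`
  have hH1 : s ≤ finrank F H := by
    have h1 := Submodule.finrank_sup_add_finrank_inf_eq K (E.map S)
    rw [finrank_map_inj S hSinj] at h1
    have h4 : finrank F (K ⊔ E.map S : Submodule F V) ≤ finrank F V := Submodule.finrank_le _
    change finrank F (K ⊔ E.map S : Submodule F V) + finrank F H = _ at h1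
    omega
  have hH2 : finrank F H ≤ s := by
    have h1 : H ≤ LinearMap.range i' := by
      intro v hv
      obtain ⟨e, he, rfl, hSe⟩ := hH v hv
      have h2 := hAH e he hSe
      rw [hA] at h2
      have h3 := congrArg ρ h2
      simp only [map_add, map_smul, hi, hii, add_zero, add_sub_cancel] at h3
      have h4 := hBa3 _ (by simpa using h3)
      rw [h4] at h2
      simp only [map_zero, smul_zero, sub_zero, add_zero] at h2
      have h5 : S e = i' (ρ' (S e)) := by
        have h6 : (a⁻¹ ^ 3 - a) • S e = (a⁻¹ ^ 3 - a) • i' (ρ' (S e)) := by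
          rw [← map_smul i', sub_smul, ← h2]
          abel
        exact smul_right_injective V ha3 h6
      exact ⟨_, h5.symm⟩
    have h2 := Submodule.finrank_mono h1
    exact h2.trans (LinearMap.finrank_range_le i')
  have hHd : finrank F H = s := le_antisymm hH2 hH1
  -- `E` and `S E` are disjoint
  have hESE : ∀ e ∈ E, S e ∈ E → e = 0 := by
    intro e he hSe
    have h1 := hAH e he hSe.1
    have h2 := hR0 _ ((hE _).1 hSe).2
    rw [h2] at h1
    have h3 : (a⁻¹ ^ 3 - a) • S e = 0 := by rw [sub_smul, ← h1, sub_self]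
    rcases smul_eq_zero.1 h3 with h4 | h4
    · exact absurd h4 ha3
    · rw [← hS e, h4, map_zero]
  -- `H ∩ U H = 0`
  have hHUH : ∀ v ∈ H, U v ∈ K → v = 0 := by
    intro v hv hUv
    obtain ⟨e, he, rfl, hSe⟩ := hH v hv
    have h1 : S e ∈ E := (hE _).2 ⟨(hK _).1 hSe, by
      have := (hK _).1 hUv
      rwa [hU] at this⟩
    rw [hESE e he h1, map_zero]
  -- the invariant subspace
  let H2 : Submodule F V := H ⊔ H.map U
  let M : Submodule F V := H2 ⊔ H2.map S
  have hH2K : H ⊓ H.map U = ⊥ := by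
    rw [eq_bot_iff]
    rintro v ⟨hv1, w, hw, rfl⟩
    rw [Submodule.mem_bot, hHUH w hw hv1.1, map_zero]
  have hSUH : ∀ v ∈ H, ∃ e ∈ E, S e = v ∧ U v = (a⁻¹ * a⁻¹) • S (U e) := by
    intro v hv
    obtain ⟨e, he, rfl, hSe⟩ := hH v hv
    exact ⟨e, he, rfl, hUH e he hSe⟩
  have hH2E : H2.map S ≤ E := by
    rw [Submodule.map_sup, sup_le_iff]
    constructor
    · rintro _ ⟨v, hv, rfl⟩
      obtain ⟨e, he, rfl, -⟩ := hH v hv
      rw [hS]
      exact he
    · rintro _ ⟨_, ⟨v, hv, rfl⟩, rfl⟩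
      obtain ⟨e, he, -, h2⟩ := hSUH v hv
      rw [h2, map_smul, hS]
      exact E.smul_mem _ (hEU e he)
  have hH2dis : H2 ⊓ H2.map S = ⊥ := by
    rw [eq_bot_iff]
    rintro v ⟨hv1, hv2⟩
    have h1 : S v ∈ E := hH2E ⟨v, hv1, rfl⟩
    have h2 : v ∈ E := hH2E hv2
    rw [Submodule.mem_bot]
    exact hESE v h2 h1
  have hMd : finrank F M = 4 * s := by
    have h1 : finrank F H2 = s + s := by
      rw [finrank_sup_disj _ _ hH2K, finrank_map_inj U hUinj, hHd]
    rw [finrank_sup_disj _ _ hH2dis, finrank_map_inj S hSinj, h1]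
    omega
  have hMS : ∀ v ∈ M, S v ∈ M := by
    have h1 : M ≤ M.comap S := by
      refine sup_le (fun v hv => ?_) ?_
      · exact (le_sup_right : H2.map S ≤ M) ⟨v, hv, rfl⟩
      · rintro _ ⟨v, hv, rfl⟩
        rw [Submodule.mem_comap, hS]
        exact (le_sup_left : H2 ≤ M) hv
    exact fun v hv => h1 hv
  -- the four pieces
  have m1 : ∀ v ∈ H, v ∈ M := fun v hv =>
    (le_sup_left : H2 ≤ M) ((le_sup_left : H ≤ H2) hv)
  have m2 : ∀ v ∈ H, U v ∈ M := fun v hv =>
    (le_sup_left : H2 ≤ M) ((le_sup_right : H.map U ≤ H2) ⟨v, hv, rfl⟩)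
  have m3 : ∀ v ∈ H, S v ∈ M := fun v hv => hMS _ (m1 v hv)
  have hUS : ∀ v ∈ H, U (S v) = (a * a) • S (U v) := by
    intro v hv
    obtain ⟨e, he, rfl, h2⟩ := hSUH v hv
    rw [h2, map_smul, hS, hS, smul_smul]
    have : a * a * (a⁻¹ * a⁻¹) = 1 := by field_simp
    rw [this, one_smul]
  have m4 : ∀ v ∈ H, U (S v) ∈ M := fun v hv => by
    rw [hUS v hv]
    exact M.smul_mem _ (hMS _ (m2 v hv))
  have hind : ∀ (G : V →ₗ[F] V), (∀ v ∈ H, G v ∈ M) → (∀ v ∈ H, G (U v) ∈ M) →
      (∀ v ∈ H, G (S v) ∈ M) → (∀ v ∈ H, G (S (U v)) ∈ M) → ∀ v ∈ M, G v ∈ M := by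
    intro G g1 g2 g3 g4
    have h1 : M ≤ M.comap G := by
      refine sup_le (sup_le (fun v hv => g1 v hv) ?_) ?_
      · rintro _ ⟨v, hv, rfl⟩
        exact g2 v hv
      · rw [Submodule.map_sup, sup_le_iff]
        constructor
        · rintro _ ⟨v, hv, rfl⟩
          exact g3 v hv
        · rintro _ ⟨_, ⟨v, hv, rfl⟩, rfl⟩
          exact g4 v hv
    exact fun v hv => h1 hv
  have hSU : ∀ v ∈ H, S (U v) = (a⁻¹ * a⁻¹) • U (S v) := by
    intro v hv
    rw [hUS v hv, smul_smul]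
    have : a⁻¹ * a⁻¹ * (a * a) = 1 := by field_simp
    rw [this, one_smul]
  have hMU : ∀ v ∈ M, U v ∈ M := by
    refine hind U m2 (fun v hv => by rw [hU]; exact m1 v hv) m4 (fun v hv => ?_)
    rw [hSU v hv, map_smul, hU]
    exact M.smul_mem _ (m3 v hv)
  -- `A`-invariance, hence `T`-invariance
  have hHA : ∀ v ∈ H, A v = (a⁻¹ ^ 3) • v := by
    intro v hv
    obtain ⟨e, he, rfl, hSe⟩ := hH v hv
    exact hAH e he hSe
  have hMA : ∀ v ∈ M, A v ∈ M := by
    refine hind A (fun v hv => ?_) (fun v hv => ?_) (fun v hv => ?_) (fun v hv => ?_)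
    · rw [hHA v hv]
      exact M.smul_mem _ (m1 v hv)
    · have h1 : R (U v) = 0 := (hK _).1 hv.1
      rw [hR0 _ h1]
      exact M.smul_mem _ (m2 v hv)
    · have h1 : S v ∈ E := hH2E ⟨v, (le_sup_left : H ≤ H2) hv, rfl⟩
      rw [hR0 _ ((hE _).1 h1).2]
      exact M.smul_mem _ (m3 v hv)
    · have h1 : S (U v) ∈ E :=
        hH2E ⟨U v, (le_sup_right : H.map U ≤ H2) ⟨v, hv, rfl⟩, rfl⟩
      rw [hR0 _ ((hE _).1 h1).2]
      exact M.smul_mem _ (hMS _ (m2 v hv))
  have hMT : ∀ v ∈ M, T v ∈ M := by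
    intro v hv
    have h1 : T v = S (A (U v)) := by rw [hAS, hU, hS]
    rw [h1]
    exact hMS _ (hMA _ (hMU _ hv))
  -- the range of `i'` is `H`
  have hi'H : ∀ y, i' y ∈ H := by
    have h1 : H ≤ LinearMap.range i' := by
      intro v hv
      have h2 := hHA v hv
      rw [hA] at h2
      have h3 := congrArg ρ h2
      simp only [map_add, map_smul, hi, hii, add_zero, add_sub_cancel] at h3
      have h4 := hBa3 _ (by simpa using h3)
      rw [h4] at h2
      simp only [map_zero, smul_zero, sub_zero, add_zero] at h2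
      have h6 : (a⁻¹ ^ 3 - a) • v = (a⁻¹ ^ 3 - a) • i' (ρ' v) := by
        rw [← map_smul, sub_smul, ← h2]
        abel
      exact ⟨_, (smul_right_injective V ha3 h6).symm⟩
    have h2 : H = LinearMap.range i' := by
      refine Submodule.eq_of_le_of_finrank_le h1 ?_
      rw [hHd]
      exact LinearMap.finrank_range_le i'
    intro y
    rw [h2]
    exact ⟨y, rfl⟩
  -- `ρ` vanishes on `M`
  have hρM : M ≤ LinearMap.ker ρ := by
    have h1 : ∀ v, A v = a • v → ρ v = 0 := by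
      intro v hv
      rw [hA] at hv
      have h3 := congrArg ρ hv
      simp only [map_add, map_smul, hi, hii, add_zero, add_sub_cancel] at h3
      exact hBa _ (by simpa using h3)
    have h2 : H ≤ LinearMap.ker ρ := by
      intro v hv
      have h2 := hHA v hv
      rw [hA] at h2
      have h3 := congrArg ρ h2
      simp only [map_add, map_smul, hi, hii, add_zero, add_sub_cancel] at h3
      exact hBa3 _ (by simpa using h3)
    refine sup_le (sup_le h2 ?_) ?_
    · rintro _ ⟨v, hv, rfl⟩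
      exact h1 _ (hR0 _ ((hK _).1 hv.1))
    · intro v hv
      exact h1 _ (hR0 _ ((hE _).1 (hH2E hv)).2)
  -- the quotient
  have e1 : ∀ (G : V →ₗ[F] V) (hG : M ≤ M.comap G) (v : V),
      M.mapQ M G hG (M.mkQ v) = M.mkQ (G v) := fun G hG v => rfl
  refine onlyIf (V := V ⧸ M) (A := M.mapQ M A (fun v hv => hMA v hv)) ha hBa (M.mkQ ∘ₗ i)
    (M.liftQ ρ hρM) (fun x => ?_) ?_ ?_ ?_ ⟨M.mapQ M S (fun v hv => hMS v hv),
      M.mapQ M T (fun v hv => hMT v hv), M.mapQ M U (fun v hv => hMU v hv), ?_, ?_, ?_, ?_⟩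
  · exact hi x
  · intro v
    obtain ⟨v, rfl⟩ := M.mkQ_surjective v
    rw [e1, hA]
    have h1 : M.liftQ ρ hρM (M.mkQ v) = ρ v := rfl
    rw [h1, map_add, map_add]
    have h2 : M.mkQ (i' ((a⁻¹ ^ 3 - a) • ρ' v)) = 0 := by
      rw [Submodule.mkQ_apply, Submodule.Quotient.mk_eq_zero]
      exact m1 _ (hi'H _)
    rw [h2, add_zero]
    rfl
  · intro v hv
    obtain ⟨v, rfl⟩ := M.mkQ_surjective v
    have h1 : M.mapQ M A (fun v hv => hMA v hv) (M.mkQ v) =
        a • M.mkQ v + M.mkQ (i (B (ρ v) - a • ρ v)) := by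
      rw [e1, hA, map_add, map_add]
      have h2 : M.mkQ (i' ((a⁻¹ ^ 3 - a) • ρ' v)) = 0 := by
        rw [Submodule.mkQ_apply, Submodule.Quotient.mk_eq_zero]
        exact m1 _ (hi'H _)
      rw [h2, add_zero]
      rfl
    rw [h1] at hv
    have h3 := congrArg (M.liftQ ρ hρM) hv
    have h4 : ∀ w, M.liftQ ρ hρM (M.mkQ w) = ρ w := fun w => rfl
    simp only [map_add, map_smul, h4, hi, add_sub_cancel] at h3
    have h5 := hBa3 _ h3
    rw [h5] at hv
    simp only [map_zero, smul_zero, sub_zero, add_zero] at hv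
    have h6 : (a⁻¹ ^ 3 - a) • M.mkQ v = 0 := by rw [sub_smul, ← hv, sub_self]
    rcases smul_eq_zero.1 h6 with h7 | h7
    · exact absurd h7 ha3
    · exact h7
  · have h1 := Submodule.finrank_quotient_add_finrank M
    rw [hMd] at h1
    omega
  · intro v
    obtain ⟨v, rfl⟩ := M.mkQ_surjective v
    rw [e1, e1, hS]
  · intro v
    obtain ⟨v, rfl⟩ := M.mkQ_surjective v
    rw [e1, e1, hT]
  · intro v
    obtain ⟨v, rfl⟩ := M.mkQ_surjective v
    rw [e1, e1, hU]
  · intro v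
    obtain ⟨v, rfl⟩ := M.mkQ_surjective v
    rw [e1, e1, e1, e1, hAS]

end Pool.Agent.TH269.TI
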