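import Mathlib
import Pool.Agent.TH269.TI.Gen

/-! Products of three involutions: the matrix form. -/

set_option autoImplicit false

open Module

namespace Pool.Agent.TH269.TI

variable {F : Type} [Field F]

theorem P3_prod {V W : Type} [AddCommGroup V] [Module F V] [AddCommGroup W] [Module F W]
    {A : V →ₗ[F] V} {A' : W →ₗ[F] W} (h : P3 A) (h' : P3 A') : P3 (A.prodMap A') := by
  obtain ⟨S, T, U, hS, hT, hU, hAS⟩ := h
  obtain ⟨S', T', U', hS', hT', hU', hAS'⟩ := h'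
  refine ⟨S.prodMap S', T.prodMap T', U.prodMap U', fun v => ?_, fun v => ?_, fun v => ?_,
    fun v => ?_⟩
  · simp [hS, hS']
  · simp [hT, hT']
  · simp [hU, hU']
  · simp [hAS, hAS']

/-- the block `diag (a⁻³, a, a, a)` -/
theorem P3_four {Y : Type} [AddCommGroup Y] [Module F Y] {a : F} (ha : a ≠ 0)
    {A : (Y × Y × Y × Y) →ₗ[F] (Y × Y × Y × Y)}
    (hA : ∀ v, A v = ((a⁻¹ ^ 3) • v.1, a • v.2.1, a • v.2.2.1, a • v.2.2.2)) : P3 A := by
  have c1 : a ^ 2 * (a⁻¹ * a⁻¹) = 1 := by field_simp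
  have c2 : a⁻¹ * a⁻¹ * a ^ 2 = 1 := by field_simp
  have c3 : a ^ 3 * (a⁻¹ ^ 3) = 1 := by field_simp
  have c4 : a⁻¹ ^ 3 * a ^ 3 = 1 := by field_simp
  have c5 : a ^ 2 * a⁻¹ = a := by field_simp
  have c6 : a⁻¹ * a⁻¹ * a ^ 3 = a := by field_simp
  refine ⟨{ toFun := fun v => (v.2.2.1, a ^ 2 • v.2.2.2, v.1, (a⁻¹ * a⁻¹) • v.2.1)
            map_add' := fun v w => by simp
            map_smul' := fun c v => by simp [smul_smul, mul_comm] },
    { toFun := fun v => (a • v.2.2.2, a ^ 3 • v.2.2.1, (a⁻¹ ^ 3) • v.2.1, a⁻¹ • v.1)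
      map_add' := fun v w => by simp
      map_smul' := fun c v => by simp [smul_smul, mul_comm] },
    { toFun := fun v => (v.2.1, v.1, v.2.2.2, v.2.2.1)
      map_add' := fun v w => by simp
      map_smul' := fun c v => by simp }, fun v => ?_, fun v => ?_, fun v => ?_, fun v => ?_⟩
  · obtain ⟨y1, y2, y3, y4⟩ := v
    simp only [LinearMap.coe_mk, AddHom.coe_mk, smul_smul, c1, c2, one_smul]
  · obtain ⟨y1, y2, y3, y4⟩ := v
    simp only [LinearMap.coe_mk, AddHom.coe_mk, smul_smul, c3, c4, mul_inv_cancel₀ ha,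
      inv_mul_cancel₀ ha, one_smul]
  · rfl
  · obtain ⟨y1, y2, y3, y4⟩ := v
    rw [hA]
    simp only [LinearMap.coe_mk, AddHom.coe_mk, smul_smul, c5, c6]

section

variable {W X Y : Type} [AddCommGroup W] [Module F W] [FiniteDimensional F W]
  [AddCommGroup X] [Module F X] [FiniteDimensional F X]
  [AddCommGroup Y] [Module F Y] [FiniteDimensional F Y]

/-- `diag (a, a⁻³, B)` on `W × (Y × X)` -/
def op (a : F) (B : X →ₗ[F] X) : (W × (Y × X)) →ₗ[F] (W × (Y × X)) :=
  (a • LinearMap.id).prodMap (((a⁻¹ ^ 3) • LinearMap.id).prodMap B)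

theorem op_apply (a : F) (B : X →ₗ[F] X) (v : W × (Y × X)) :
    op a B v = (a • v.1, (a⁻¹ ^ 3) • v.2.1, B v.2.2) := rfl

theorem genOnlyIf {a : F} (ha : a ≠ 0) (ha4 : a ^ 4 ≠ 1) {B : X →ₗ[F] X}
    (hBa : ∀ x, B x = a • x → x = 0) (hBa3 : ∀ x, B x = (a⁻¹ ^ 3) • x → x = 0)
    (hW : finrank F W = 2 * finrank F X + 3 * finrank F Y)
    (h : P3 (op (W := W) (Y := Y) a B)) : P3 (a ^ 2 • B) := by
  refine onlyIfGen ha ha4 hBa hBa3 (V := W × (Y × X))
    (LinearMap.inr F W (Y × X) ∘ₗ LinearMap.inr F Y X)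
    (LinearMap.snd F Y X ∘ₗ LinearMap.snd F W (Y × X)) (fun x => by simp)
    (LinearMap.inr F W (Y × X) ∘ₗ LinearMap.inl F Y X)
    (LinearMap.fst F Y X ∘ₗ LinearMap.snd F W (Y × X)) (fun x => by simp)
    (fun x => by simp) (fun x => by simp) ?_ ?_ h
  · rintro ⟨w, y, x⟩
    rw [op_apply]
    simp [sub_smul]
  · rw [finrank_prod, finrank_prod, hW]
    omega

theorem genIf {a : F} (ha : a ≠ 0) {B : X →ₗ[F] X}
    (hBa : ∀ x, B x = a • x → x = 0)
    (hW : finrank F W = 2 * finrank F X + 3 * finrank F Y) (h : P3 (a ^ 2 • B)) :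
    P3 (op (W := W) (Y := Y) a B) := by
    have h1 := infl_of ha hBa h
    let D : (Y × Y × Y × Y) →ₗ[F] (Y × Y × Y × Y) :=
      ((a⁻¹ ^ 3) • LinearMap.id).prodMap ((a • LinearMap.id).prodMap
        ((a • LinearMap.id).prodMap (a • LinearMap.id)))
    have h2 : P3 D := P3_four ha fun v => rfl
    have h3 := P3_prod h1 h2
    have hfin : finrank F ((X × X) × (Y × Y × Y)) = finrank F W := by
      rw [finrank_prod, finrank_prod, finrank_prod, finrank_prod, hW]
      omega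
    let e : ((X × X) × (Y × Y × Y)) ≃ₗ[F] W := LinearEquiv.ofFinrankEq _ _ hfin
    let G : ((X × X × X) × (Y × Y × Y × Y)) ≃ₗ[F] (W × (Y × X)) :=
      { toFun := fun v => (e ((v.1.1, v.1.2.1), (v.2.2.1, v.2.2.2.1, v.2.2.2.2)),
          (v.2.1, v.1.2.2))
        invFun := fun v => (((e.symm v.1).1.1, (e.symm v.1).1.2, v.2.2),
          (v.2.1, (e.symm v.1).2.1, (e.symm v.1).2.2.1, (e.symm v.1).2.2.2))
        map_add' := fun v w => by
          refine Prod.ext ?_ rfl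
          change e _ = e _ + e _
          rw [← map_add]
          rfl
        map_smul' := fun c v => by
          refine Prod.ext ?_ rfl
          change e _ = c • e _
          rw [← map_smul]
          rfl
        left_inv := fun v => by simp
        right_inv := fun v => by simp }
    refine P3_conj G (fun v => ?_) h3
    rw [op_apply]
    refine Prod.ext ?_ rfl
    change e _ = a • e _
    rw [← map_smul]
    rfl

end

/-! ### matrices -/

/-- The matrix `A` is a product of three involutions (the identity counts as an involution). -/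
def Prod3 {ι : Type} [Fintype ι] [DecidableEq ι] (A : Matrix ι ι F) : Prop :=
  ∃ S T U : Matrix ι ι F, S * S = 1 ∧ T * T = 1 ∧ U * U = 1 ∧ A = S * T * U

theorem prod3_iff {ι : Type} [Fintype ι] [DecidableEq ι] (A : Matrix ι ι F) :
    Prod3 A ↔ P3 (Matrix.toLin' A) := by
  constructor
  · rintro ⟨S, T, U, hS, hT, hU, rfl⟩
    refine ⟨Matrix.toLin' S, Matrix.toLin' T, Matrix.toLin' U, fun v => ?_, fun v => ?_,
      fun v => ?_, fun v => ?_⟩
    · rw [Matrix.toLin'_apply, Matrix.toLin'_apply, Matrix.mulVec_mulVec, hS, Matrix.one_mulVec]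
    · rw [Matrix.toLin'_apply, Matrix.toLin'_apply, Matrix.mulVec_mulVec, hT, Matrix.one_mulVec]
    · rw [Matrix.toLin'_apply, Matrix.toLin'_apply, Matrix.mulVec_mulVec, hU, Matrix.one_mulVec]
    · simp only [Matrix.toLin'_apply, Matrix.mulVec_mulVec]
      rw [mul_assoc]
  · rintro ⟨S, T, U, hS, hT, hU, hA⟩
    have h1 : ∀ L : (ι → F) →ₗ[F] (ι → F), (∀ v, L (L v) = v) →
        LinearMap.toMatrix' L * LinearMap.toMatrix' L = 1 := by
      intro L hL
      rw [← LinearMap.toMatrix'_comp]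
      have : L ∘ₗ L = LinearMap.id := LinearMap.ext hL
      rw [this, LinearMap.toMatrix'_id]
    refine ⟨LinearMap.toMatrix' S, LinearMap.toMatrix' T, LinearMap.toMatrix' U, h1 S hS, h1 T hT,
      h1 U hU, ?_⟩
    rw [← LinearMap.toMatrix'_comp, ← LinearMap.toMatrix'_comp]
    have h2 : Matrix.toLin' A = (S ∘ₗ T) ∘ₗ U := LinearMap.ext hA
    rw [← h2, LinearMap.toMatrix'_toLin']

/-- **The recursion for matrices.** -/
theorem recursion {a : F} (ha : a ≠ 0) (ha4 : a ^ 4 ≠ 1) (q s : ℕ)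
    (B : Matrix (Fin q) (Fin q) F) (h1 : (B - a • (1 : Matrix (Fin q) (Fin q) F)).det ≠ 0) :
    (Prod3 (a ^ 2 • B) →
      Prod3 (Matrix.fromBlocks (a • (1 : Matrix (Fin (2 * q + 3 * s)) (Fin (2 * q + 3 * s)) F)) 0 0
        (Matrix.fromBlocks ((a⁻¹ ^ 3) • (1 : Matrix (Fin s) (Fin s) F)) 0 0 B))) ∧
    ((B - (a⁻¹ ^ 3) • (1 : Matrix (Fin q) (Fin q) F)).det ≠ 0 →
      Prod3 (Matrix.fromBlocks (a • (1 : Matrix (Fin (2 * q + 3 * s)) (Fin (2 * q + 3 * s)) F)) 0 0
        (Matrix.fromBlocks ((a⁻¹ ^ 3) • (1 : Matrix (Fin s) (Fin s) F)) 0 0 B)) →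
      Prod3 (a ^ 2 • B)) := by
  have hev : ∀ c : F, (B - c • (1 : Matrix (Fin q) (Fin q) F)).det ≠ 0 →
      ∀ x, Matrix.toLin' B x = c • x → x = 0 := by
    intro c hc x hx
    refine Matrix.eq_zero_of_mulVec_eq_zero hc ?_
    rw [Matrix.sub_mulVec, Matrix.smul_mulVec, Matrix.one_mulVec]
    rw [Matrix.toLin'_apply] at hx
    rw [hx, sub_self]
  have hfin : finrank F (Fin (2 * q + 3 * s) → F) =
      2 * finrank F (Fin q → F) + 3 * finrank F (Fin s → F) := by
    simp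
  rw [prod3_iff, prod3_iff]
  have hB : Matrix.toLin' (a ^ 2 • B) = a ^ 2 • Matrix.toLin' B := map_smul _ _ _
  rw [hB]
  let G : ((Fin (2 * q + 3 * s) ⊕ (Fin s ⊕ Fin q)) → F) ≃ₗ[F]
      ((Fin (2 * q + 3 * s) → F) × ((Fin s → F) × (Fin q → F))) :=
    (LinearEquiv.sumArrowLequivProdArrow _ _ F F).trans
      (LinearEquiv.prodCongr (LinearEquiv.refl F _)
        (LinearEquiv.sumArrowLequivProdArrow _ _ F F))
  have hG : ∀ v, G v = (fun i => v (Sum.inl i), (fun i => v (Sum.inr (Sum.inl i)),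
      fun i => v (Sum.inr (Sum.inr i)))) := fun v => rfl
  have hconj : ∀ v, G (Matrix.toLin' (Matrix.fromBlocks (a • (1 : Matrix (Fin (2 * q + 3 * s))
      (Fin (2 * q + 3 * s)) F)) 0 0
      (Matrix.fromBlocks ((a⁻¹ ^ 3) • (1 : Matrix (Fin s) (Fin s) F)) 0 0 B)) v) =
      op (W := Fin (2 * q + 3 * s) → F) (Y := Fin s → F) a (Matrix.toLin' B) (G v) := by
    intro v
    rw [Matrix.toLin'_apply, Matrix.fromBlocks_mulVec, Matrix.fromBlocks_mulVec, op_apply, hG, hG]
    refine Prod.ext ?_ (Prod.ext ?_ ?_)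
    · funext i
      simp [Matrix.smul_mulVec]
    · funext i
      simp [Matrix.smul_mulVec]
    · funext i
      simp only [Matrix.zero_mulVec, zero_add, Sum.elim_inr, Matrix.toLin'_apply]
      rfl
  constructor
  · intro h
    have h2 := genIf (W := Fin (2 * q + 3 * s) → F) (X := Fin q → F) (Y := Fin s → F) ha
      (B := Matrix.toLin' B) (hev a h1) hfin h
    refine P3_conj G.symm (fun v => ?_) h2
    rw [LinearEquiv.symm_apply_eq, hconj, LinearEquiv.apply_symm_apply]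
  · intro h3 h
    exact genOnlyIf (W := Fin (2 * q + 3 * s) → F) (X := Fin q → F) (Y := Fin s → F) ha ha4
      (B := Matrix.toLin' B) (hev a h1) (hev _ h3) hfin (P3_conj G hconj h)

end Pool.Agent.TH269.TI
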